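import Mathlib
import Pool.Agent.H42.Stk2

open Pool.Agent.H42.Stk

/-- Under Friedman's principle at `ω₂` (a consequence of Martin's Maximum), some countably compact
Tychonoff space is not Stäckel-compact. -/
theorem Pool.Agent.Results.MP_941e3e_gt.Cons.result (h : Fr) :
    ∃ (X : Type) (_ : TopologicalSpace X),
      T35Space X ∧ CountablyCompactSpace X ∧ ¬ Stackel X :=
  ctbl h
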